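import Pool.Agent.Lib.MP_1b70d9_co.Add

set_option autoImplicit false
set_option maxHeartbeats 4000000

/-
The same proof as in Main.lean (father map of a breadth first search which follows a well order),
for an arbitrary choice of roots and for arbitrary (also infinite) closed sets.
-/

namespace Pool.Agent.MP_1b70d9_co.Ins

open SimpleGraph

universe u

variable {V : Type u} {G : SimpleGraph V}

/-- a choice of a root in every component -/
structure Root (G : SimpleGraph V) where
  r : V → V
  reach : ∀ v, G.Reachable (r v) v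
  const : ∀ {u v : V}, G.Adj u v → r u = r v

variable {R : Root G}

noncomputable def lev (R : Root G) (v : V) : ℕ := G.dist (R.r v) v

lemma lev_adj {u v : V} (h : G.Adj u v) : lev R v ≤ lev R u + 1 := by
  unfold lev
  rw [R.const h]
  exact adj_le h

lemma lev_zero {v : V} (h : lev R v = 0) : v = R.r v :=
  ((R.reach v).dist_eq_zero_iff.1 h).symm

lemma lev_nb {v : V} {n : ℕ} (h : lev R v = n + 1) : ∃ u, G.Adj v u ∧ lev R u = n := by
  obtain ⟨u, hu1, hu2⟩ := nb h
  refine ⟨u, hu1, ?_⟩
  unfold lev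
  rw [← R.const hu1]
  exact hu2

noncomputable def wr (v : V) : Ordinal.{u} := Ordinal.typein (@WellOrderingRel V) v

noncomputable def kap (V : Type u) : Ordinal.{u} := Ordinal.type (@WellOrderingRel V)

lemma wr_inj {u v : V} (h : wr u = wr v) : u = v := Ordinal.typein_injective _ h

lemma wr_lt (v : V) : wr v < kap V := Ordinal.typein_lt_type _ v

lemma kap_ne (v : V) : kap V ≠ 0 := by
  intro h
  have := wr_lt v
  rw [h] at this
  exact absurd this (not_lt_of_ge zero_le)

noncomputable def rk (R : Root G) : ℕ → V → Ordinal.{u}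
  | 0, v => wr v
  | n + 1, v => kap V * sInf {o | ∃ u, G.Adj v u ∧ lev R u = n ∧ rk R n u = o} + wr v

noncomputable def mo (R : Root G) (n : ℕ) (v : V) : Ordinal.{u} :=
  sInf {o | ∃ u, G.Adj v u ∧ lev R u = n ∧ rk R n u = o}

lemma rk_succ (n : ℕ) (v : V) : rk R (n + 1) v = kap V * mo R n v + wr v := rfl

lemma rk_inj {n : ℕ} {u v : V} (h : rk R n u = rk R n v) : u = v := by
  rcases n with _ | n
  · exact wr_inj h
  · rw [rk_succ, rk_succ] at h
    have h2 := congrArg (fun x => x % kap V) h
    simp only [Ordinal.mul_add_mod_self, Ordinal.mod_eq_of_lt (wr_lt u),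
      Ordinal.mod_eq_of_lt (wr_lt v)] at h2
    exact wr_inj h2

lemma mo_le {n : ℕ} {u v : V} (h : rk R (n + 1) u < rk R (n + 1) v) : mo R n u ≤ mo R n v := by
  rw [rk_succ, rk_succ] at h
  by_contra hcon
  push Not at hcon
  have h1 : mo R n v + 1 ≤ mo R n u := Order.add_one_le_of_lt hcon
  have h2 : kap V * (mo R n v + 1) ≤ kap V * mo R n u := by gcongr
  rw [mul_add, mul_one] at h2
  have h3 : kap V * mo R n v + wr v < kap V * mo R n v + kap V := by
    have := wr_lt v
    gcongr
  have h4 : kap V * mo R n u ≤ kap V * mo R n u + wr u := le_self_add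
  exact absurd h (not_lt_of_ge ((h3.le.trans h2).trans h4))

/-- `f` is the father of `v` -/
def IsF (R : Root G) (v f : V) : Prop :=
  G.Adj v f ∧ lev R f + 1 = lev R v ∧
    ∀ u, G.Adj v u → lev R u + 1 = lev R v → rk R (lev R f) f ≤ rk R (lev R u) u

lemma exF {v : V} (h : lev R v ≠ 0) : ∃ f, IsF R v f ∧ rk R (lev R f) f = mo R (lev R f) v := by
  obtain ⟨n, hn⟩ : ∃ n, lev R v = n + 1 := ⟨lev R v - 1, by omega⟩
  have hne : {o | ∃ u, G.Adj v u ∧ lev R u = n ∧ rk R n u = o}.Nonempty := by
    obtain ⟨u, h1, h2⟩ := lev_nb hn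
    exact ⟨rk R n u, u, h1, h2, rfl⟩
  obtain ⟨f, hf1, hf2, hf3⟩ := csInf_mem hne
  refine ⟨f, ⟨hf1, by omega, ?_⟩, ?_⟩
  · intro u hu1 hu2
    have : lev R u = n := by omega
    rw [this, hf2, hf3]
    exact csInf_le' ⟨u, hu1, this, rfl⟩
  · rw [hf2, hf3]
    rfl

lemma isF_mo {v f : V} (h : IsF R v f) : rk R (lev R f) f = mo R (lev R f) v := by
  obtain ⟨f', hf', hm⟩ := exF (R := R) (v := v) (by have := h.2.1; omega)
  have e : lev R f = lev R f' := by have := h.2.1; have := hf'.2.1; omega
  have h1 := h.2.2 f' hf'.1 hf'.2.1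
  have h2 := hf'.2.2 f h.1 h.2.1
  have h3 := le_antisymm h1 h2
  rw [h3, hm, e]

lemma QG (hB : Br G) {v u u' : V} (h1 : G.Adj v u) (h2 : G.Adj v u') (h3 : lev R u + 1 = lev R v)
    (h4 : lev R u' + 1 = lev R v) : u = u' ∨ G.Adj u u' := by
  unfold lev at h3 h4
  rw [← R.const h1] at h3
  rw [← R.const h2] at h4
  exact (QT hB _).1 (R.r v) v u u' h3.symm h1 h2 rfl (by omega)

lemma TG (hB : Br G) {v v' : V} (h : G.Adj v v') {n : ℕ} (h3 : lev R v = n + 1)
    (h4 : lev R v' = n + 1) : ∃ w, G.Adj v w ∧ G.Adj v' w ∧ lev R w = n := by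
  unfold lev at h3 h4
  rw [← R.const h] at h4
  obtain ⟨w, h5, h6, h7⟩ := (QT hB n).2 (R.r v) v v' h3 h4 h
  refine ⟨w, h5, h6, ?_⟩
  unfold lev
  rw [← R.const h5]
  exact h7

lemma domF (hB : Br G) (n : ℕ) : ∀ v u f, lev R v = n + 1 → lev R u = n + 1 → G.Adj u v →
    rk R (n + 1) u < rk R (n + 1) v → IsF R v f → G.Adj u f := by
  have h4 := ch4_of_br hB
  have h5 := ch5_of_br hB
  induction n with
  | zero =>
    intro v u f hv hu huv _ hf
    obtain ⟨g, hg, _⟩ := exF (R := R) (v := u) (by omega)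
    have e1 := lev_zero (R := R) (v := f) (by have := hf.2.1; omega)
    have e2 := lev_zero (R := R) (v := g) (by have := hg.2.1; omega)
    rw [← R.const hf.1, ← R.const huv, R.const hg.1] at e1
    rw [e1, ← e2]
    exact hg.1
  | succ n ih =>
    intro v u fv hv hu huv hlt hfv
    obtain ⟨fu, hfu, _⟩ := exF (R := R) (v := u) (by omega)
    have lfv : lev R fv = n + 1 := by have := hfv.2.1; omega
    have lfu : lev R fu = n + 1 := by have := hfu.2.1; omega
    have m1 := isF_mo hfv
    have m2 := isF_mo hfu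
    have m3 := mo_le hlt
    rw [lfv] at m1
    rw [lfu] at m2
    rw [← m1, ← m2] at m3
    rcases eq_or_lt_of_le m3 with m4 | m4
    · have := rk_inj m4
      rw [← this]
      exact hfu.1
    by_contra hcon
    obtain ⟨w, hw1, hw2, hw3⟩ := TG hB huv hu hv
    have a1 := hfv.2.2 w hw2 (by omega)
    rw [lfv, hw3] at a1
    have a2 : rk R (n + 1) fv ≠ rk R (n + 1) w := by
      intro e
      have := rk_inj e
      rw [← this] at hw1
      exact hcon hw1
    have a3 := lt_of_le_of_ne a1 a2
    have b1 : G.Adj fv w := by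
      rcases QG (R := R) hB hfv.1 hw2 (by omega) (by omega) with h | h
      · exact absurd (by rw [h]) a2
      · exact h
    have b2 : G.Adj fu w := by
      rcases QG (R := R) hB hfu.1 hw1 (by omega) (by omega) with h | h
      · rw [h] at m4
        exact absurd (m4.trans a3) (lt_irrefl _)
      · exact h
    obtain ⟨fw, hfw, _⟩ := exF (R := R) (v := w) (by omega)
    have lfw : lev R fw = n := by have := hfw.2.1; omega
    have c1 := ih w fv fw hw3 lfv b1 a3 hfw
    have c2 := ih w fu fw hw3 lfu b2 (m4.trans a3) hfw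
    have nvfu : ¬ G.Adj v fu := by
      intro h
      have := hfv.2.2 fu h (by omega)
      rw [lfv, lfu] at this
      exact absurd m4 (not_lt_of_ge this)
    have n1 : u ≠ fv := fun e => by rw [← e] at lfv; omega
    have n2 : v ≠ fu := fun e => by rw [← e] at lfu; omega
    have n3 : u ≠ fw := fun e => by rw [← e] at lfw; omega
    have n4 : v ≠ fw := fun e => by rw [← e] at lfw; omega
    have n5 : fv ≠ fu := fun e => by rw [e] at m4; exact absurd m4 (lt_irrefl _)
    by_cases hff : G.Adj fu fv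
    · rcases h4 u v fv fu huv hfv.1 hff.symm hfu.1.symm n1 n2 with h | h
      · exact hcon h
      · exact nvfu h
    · rcases h5 u v fv fw fu huv hfv.1 c1 c2.symm hfu.1.symm n1 n3 n4 n2 n5 with h | h | h | h | h
      · exact hcon h
      · have := lev_adj (R := R) h.symm
        omega
      · have := lev_adj (R := R) h.symm
        omega
      · exact nvfu h
      · exact hff h.symm

open Classical in
/-- a choice of the father -/
noncomputable def fa (R : Root G) (v : V) : V :=
  if h : lev R v ≠ 0 then (exF h).choose else v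

lemma fa_isF {v : V} (h : lev R v ≠ 0) : IsF R v (fa R v) := by
  unfold fa
  rw [dif_pos h]
  exact (exF h).choose_spec.1

lemma ch4_res (h : Ch4 G) (T : Set V) : Ch4 (res G T) := by
  intro a b c d hab hbc hcd hda hac hbd
  rw [res_adj] at *
  rcases h a b c d hab.1 hbc.1 hcd.1 hda.1 hac hbd with g | g
  · exact Or.inl ⟨g, hab.2.1, hbc.2.2⟩
  · exact Or.inr (res_adj.2 ⟨g, hab.2.2, hcd.2.2⟩)

lemma ch5_res (h : Ch5 G) (T : Set V) : Ch5 (res G T) := by
  intro a b c d e hab hbc hcd hde hea hac had hbd hbe hce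
  simp only [res_adj] at *
  rcases h a b c d e hab.1 hbc.1 hcd.1 hde.1 hea.1 hac had hbd hbe hce with g | g | g | g | g
  · exact Or.inl ⟨g, hab.2.1, hbc.2.2⟩
  · exact Or.inr (Or.inl ⟨g, hab.2.1, hcd.2.2⟩)
  · exact Or.inr (Or.inr (Or.inl ⟨g, hab.2.2, hcd.2.2⟩))
  · exact Or.inr (Or.inr (Or.inr (Or.inl ⟨g, hab.2.2, hde.2.2⟩)))
  · exact Or.inr (Or.inr (Or.inr (Or.inr ⟨g, hbc.2.2, hde.2.2⟩)))

open Classical in
lemma closed_br (hB : Br G) (m : ℕ) : ∀ F : Finset V, F.card = m →
    (∀ v ∈ F, lev R v ≠ 0 → fa R v ∈ F) → Br (res G (F : Set V)) := by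
  induction m with
  | zero =>
    intro F hF _ N c hN hc
    rw [Finset.card_eq_zero] at hF
    subst hF
    have := (res_adj.1 (hc.adj 0 (by omega))).2.1
    simp at this
  | succ m ih =>
    intro F hF hcl
    have hne : F.Nonempty := by rw [← Finset.card_pos]; omega
    obtain ⟨x, hxF, hmax⟩ := Finset.exists_max_image F
      (fun v => toLex (lev R v, rk R (lev R v) v)) hne
    by_cases h0 : lev R x = 0
    · intro N c hN hc
      exfalso
      have h1 := res_adj.1 (hc.adj 0 (by omega))
      have z : ∀ v ∈ F, lev R v = 0 := by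
        intro v hv
        have := hmax v hv
        rw [Prod.Lex.toLex_le_toLex] at this
        omega
      have e1 := lev_zero (z _ h1.2.1)
      have e2 := lev_zero (z _ h1.2.2)
      rw [R.const h1.1, ← e2] at e1
      rw [e1] at h1
      exact G.loopless.irrefl _ h1.1
    · have hf := fa_isF h0
      have hfF := hcl x hxF h0
      have hB' := ih (F.erase x) (by rw [Finset.card_erase_of_mem hxF]; omega) (by
        intro v hv hv0
        rw [Finset.mem_erase] at hv ⊢
        refine ⟨?_, hcl v hv.2 hv0⟩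
        intro e
        have h1 := (fa_isF hv0).2.1
        rw [e] at h1
        have := hmax v hv.2
        rw [Prod.Lex.toLex_le_toLex] at this
        omega)
      refine add_vertex (x := x) (y := fa R x) ?_ hB' (ch4_res (ch4_of_br hB) _)
        (ch5_res (ch5_of_br hB) _) ?_ ?_
      · intro a b
        simp only [res_adj, Finset.coe_erase, Set.mem_sdiff, Finset.mem_coe, Set.mem_singleton_iff]
        tauto
      · exact res_adj.2 ⟨hf.1, hxF, hfF⟩
      · intro u hu
        obtain ⟨hxu, _, huF⟩ := res_adj.1 hu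
        have hm := hmax u huF
        rw [Prod.Lex.toLex_le_toLex] at hm
        simp only at hm
        have l1 := lev_adj (R := R) hxu
        have l2 := lev_adj (R := R) hxu.symm
        have hl : lev R u + 1 = lev R x ∨ lev R u = lev R x := by omega
        rcases hl with hl | hl
        · rcases QG hB hxu hf.1 hl hf.2.1 with g | g
          · exact Or.inl g
          · exact Or.inr (res_adj.2 ⟨g, huF, hfF⟩)
        · right
          obtain ⟨n, hn⟩ : ∃ n, lev R x = n + 1 := ⟨lev R x - 1, by omega⟩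
          have hr : rk R (n + 1) u < rk R (n + 1) x := by
            rcases hm with hm | ⟨_, hm⟩
            · omega
            · rw [hl, hn] at hm
              refine lt_of_le_of_ne hm ?_
              intro e
              exact hxu.ne' (rk_inj e)
          exact res_adj.2 ⟨domF hB n x u (fa R x) hn (by omega) hxu.symm hr hf, huF, hfF⟩

lemma lev_iter (v : V) (k : ℕ) (hk : k ≤ lev R v) : lev R ((fa R)^[k] v) = lev R v - k := by
  induction k with
  | zero => simp
  | succ k ih =>
    have e := ih (by omega)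
    rw [Function.iterate_succ_apply']
    have := (fa_isF (R := R) (v := (fa R)^[k] v) (by omega)).2.1
    omega

open Classical in
/-- the branches of the vertices of `S` -/
noncomputable def hull (R : Root G) (S : Finset V) : Finset V :=
  S.biUnion (fun v => (Finset.range (lev R v + 1)).image (fun k => (fa R)^[k] v))

lemma mem_hull {S : Finset V} {x : V} :
    x ∈ hull R S ↔ ∃ v ∈ S, ∃ k, k ≤ lev R v ∧ (fa R)^[k] v = x := by
  unfold hull
  simp [Finset.mem_biUnion, Finset.mem_image]

lemma sub_hull (S : Finset V) : S ⊆ hull R S := by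
  intro v hv
  exact mem_hull.2 ⟨v, hv, 0, Nat.zero_le _, rfl⟩

lemma hull_closed (S : Finset V) : ∀ v ∈ hull R S, fa R v ∈ hull R S := by
  intro x hx
  by_cases hx0 : lev R x = 0
  · have : fa R x = x := by unfold fa; rw [dif_neg (by simpa using hx0)]
    rw [this]; exact hx
  · obtain ⟨v, hv, k, hk, rfl⟩ := mem_hull.1 hx
    have := lev_iter (R := R) v k hk
    refine mem_hull.2 ⟨v, hv, k + 1, by omega, ?_⟩
    rw [Function.iterate_succ_apply']

lemma hull_card (S : Finset V) : (hull R S).card ≤ ∑ v ∈ S, (lev R v + 1) := by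
  classical
  unfold hull
  refine Finset.card_biUnion_le.trans ?_
  refine Finset.sum_le_sum ?_
  intro v _
  exact Finset.card_image_le.trans (by simp)

lemma iter_mem {F : Set V} (hcl : ∀ v ∈ F, fa R v ∈ F) {v : V} (hv : v ∈ F) (k : ℕ) :
    (fa R)^[k] v ∈ F := by
  induction k with
  | zero => exact hv
  | succ k ih => rw [Function.iterate_succ_apply']; exact hcl _ ih

lemma res_mono {S F : Set V} (h : S ⊆ F) : res G S ≤ res G F := by
  intro a b hab
  exact res_adj.2 ⟨(res_adj.1 hab).1, h (res_adj.1 hab).2.1, h (res_adj.1 hab).2.2⟩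

/-- all closed sets, finite or not -/
lemma closed_set (hB : Br G) (F : Set V) (hcl : ∀ v ∈ F, fa R v ∈ F) : Br (res G F) := by
  classical
  intro N c hN hc
  have hcF : ∀ i, i < N → c i ∈ F := by
    intro i hi
    rcases Nat.lt_or_ge (i + 1) N with h | h
    · exact (res_adj.1 (hc.adj i h)).2.1
    · obtain rfl : i = N - 1 := by omega
      exact (res_adj.1 hc.close).2.1
  set T : Finset V := hull R ((Finset.range N).image c) with hT
  have hTF : (T : Set V) ⊆ F := by
    intro x hx
    obtain ⟨v, hv, k, _, rfl⟩ := mem_hull.1 (Finset.mem_coe.1 hx)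
    obtain ⟨i, hi, rfl⟩ := Finset.mem_image.1 hv
    exact iter_mem hcl (hcF i (Finset.mem_range.1 hi)) k
  have hcT : ∀ i, i < N → c i ∈ (T : Set V) := by
    intro i hi
    exact Finset.mem_coe.2 (sub_hull _ (Finset.mem_image.2 ⟨i, Finset.mem_range.2 hi, rfl⟩))
  have hS : SCyc (res G (T : Set V)) N c := by
    refine ⟨?_, ?_, hc.inj⟩
    · intro i hi
      exact res_adj.2 ⟨(res_adj.1 (hc.adj i hi)).1, hcT _ (by omega), hcT _ (by omega)⟩
    · exact res_adj.2 ⟨(res_adj.1 hc.close).1, hcT _ (by omega), hcT _ (by omega)⟩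
  obtain ⟨i, j, hij, hj, hd⟩ := closed_br (R := R) hB _ T rfl
    (fun v hv _ => hull_closed _ v hv) N c hN hS
  refine ⟨i, j, hij, hj, lt_of_le_of_lt ?_ hd⟩
  obtain ⟨q, _⟩ := seq_walk (G := res G (T : Set V)) (c := c) hij
    (fun m _ hm => hS.adj m (by omega))
  obtain ⟨p, hp⟩ := q.reachable.exists_walk_length_eq_dist
  rw [← hp]
  have := dist_le (p.mapLe (res_mono (G := G) hTF))
  simpa using this

/-- the root is reached inside a closed set, with the distance of the whole graph -/
lemma closed_root (F : Set V) (hcl : ∀ v ∈ F, fa R v ∈ F) (n : ℕ) : ∀ (v : V) (hv : v ∈ F),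
    lev R v = n → ∃ h : R.r v ∈ F, ∃ q : (G.induce F).Walk ⟨R.r v, h⟩ ⟨v, hv⟩, q.length = n := by
  induction n with
  | zero =>
    intro v hv h0
    have e : R.r v = v := ((R.reach v).dist_eq_zero_iff.1 h0)
    refine ⟨by rw [e]; exact hv, ?_⟩
    have : (⟨R.r v, by rw [e]; exact hv⟩ : F) = ⟨v, hv⟩ := Subtype.ext e
    rw [this]
    exact ⟨Walk.nil, rfl⟩
  | succ n ih =>
    intro v hv hn
    have hf := fa_isF (R := R) (v := v) (by omega)
    have hfF := hcl v hv
    obtain ⟨h, q, hq⟩ := ih (fa R v) hfF (by have := hf.2.1; omega)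
    have e : R.r (fa R v) = R.r v := (R.const hf.1).symm
    refine ⟨by rw [← e]; exact h, ?_⟩
    have e2 : (⟨R.r v, by rw [← e]; exact h⟩ : F) = ⟨R.r (fa R v), h⟩ := Subtype.ext e.symm
    rw [e2]
    have hadj : (G.induce F).Adj ⟨fa R v, hfF⟩ ⟨v, hv⟩ := by simpa using hf.1.symm
    exact ⟨q.concat hadj, by simp [hq]⟩

/-- Bridged: every cycle of length at least 4 has two vertices which are closer in the graph
than along the cycle. -/
def Bridged (G : SimpleGraph V) : Prop :=
  ∀ (u : V) (c : G.Walk u u), c.IsCycle → 4 ≤ c.length →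
    ∃ i j : ℕ, i ≤ j ∧ j < c.length ∧
      G.dist (c.getVert i) (c.getVert j) < min (j - i) (c.length - (j - i))

theorem main (hG : Bridged G) (r : V → V) (hr : ∀ v, G.Reachable (r v) v)
    (hr' : ∀ u v, G.Adj u v → r u = r v) :
    ∃ f : V → V, (∀ v, r v = v → f v = v) ∧
      (∀ v, r v ≠ v → G.Adj v (f v) ∧ G.dist (r v) (f v) + 1 = G.dist (r v) v) ∧
      (∀ F : Set V, (∀ v ∈ F, f v ∈ F) → Bridged (G.induce F) ∧
        ∀ v : F, ∃ h : r v ∈ F, (G.induce F).Reachable ⟨r v, h⟩ v ∧
          (G.induce F).dist ⟨r v, h⟩ v = G.dist (r v) (v : V)) ∧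
      ∀ S : Finset V, ∃ T : Finset V, S ⊆ T ∧ (∀ v ∈ T, f v ∈ T) ∧
        T.card ≤ ∑ v ∈ S, (G.dist (r v) v + 1) := by
  have hB := br_of_walk hG
  let R : Root G := ⟨r, hr, fun {u v} h => hr' u v h⟩
  have hlev : ∀ v, lev R v = G.dist (r v) v := fun v => rfl
  refine ⟨fa R, ?_, ?_, ?_, ?_⟩
  · intro v hv
    have h0 : lev R v = 0 := by rw [hlev, hv, dist_self]
    unfold fa
    rw [dif_neg (by simpa using h0)]
  · intro v hv
    have h0 : lev R v ≠ 0 := by
      rw [hlev]
      intro h
      exact hv ((hr v).dist_eq_zero_iff.1 h)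
    have hf := fa_isF (R := R) h0
    refine ⟨hf.1, ?_⟩
    have h1 := hf.2.1
    rw [hlev, hlev, ← hr' _ _ hf.1] at h1
    exact h1
  · intro F hF
    refine ⟨walk_of_br (closed_set hB F hF), ?_⟩
    rintro ⟨v, hv⟩
    obtain ⟨h, q, hq⟩ := closed_root (R := R) F hF _ v hv rfl
    refine ⟨h, q.reachable, le_antisymm ?_ ?_⟩
    · exact (dist_le q).trans (by rw [hq]; exact le_refl _)
    · obtain ⟨p, hp⟩ := q.reachable.exists_walk_length_eq_dist
      have := dist_le (p.map (Embedding.induce F).toHom)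
      rw [Walk.length_map, hp] at this
      exact this
  · intro S
    exact ⟨hull R S, sub_hull S, hull_closed S, hull_card S⟩

end Pool.Agent.MP_1b70d9_co.Ins
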